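import Mathlib
import Pool.Agent.Helper72K9.AB.Final
import Pool.Agent.Helper72K9.AB.Eps
import Pool.Agent.Helper72K9.AB.Gap
import Pool.Agent.Helper72K9.AB.Galn

/-!
# Uniform growth gap and the commuting probability of the Galois groups of the eigenvalues

`G = ⟨S⟩`, `H` is a subgroup of index at most `d`, `Γ = γ_{k+1}(H)` is nilpotent (or `H/[Γ,Γ]` is
not virtually nilpotent).  The gap for the growth rate of `G` is proved when the eigenvalues `z` of
the elements of `H` on `ℂ ⊗ Γ^ab` which are algebraic units and not roots of unity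

* are conjugate to elements of degree at most `D` over abelian extensions of number fields of degree
  at most `m`, with an explicit constant depending only on `m`, `D`, `k`, `d` (not on the fields);
* or have a Galois group (of the minimal polynomial over `ℚ`) in which the proportion of the pairs
  of commuting elements is at least `ε > 0`, with a constant depending only on `ε`, `k`, `d`.

In general `ρ_S` is bounded below by the Mahler measure of an eigenvalue not in these classes.
Moreover, for all `m`, `D`, `ε`, the case of metabelian groups of the question, and the case of all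
groups with `γ_{k+1}(G)` nilpotent, are equivalent to Lehmer's problem for the units outside these
classes.

Proof.  Let `z` be of degree `≤ D` over the abelian extension `L` of `K`, `[K : ℚ] ≤ m`, `L` inside
`K(z)`, let `f` be the minimal polynomial of `z` over `L`, `p` a prime number between `4^(mD)` and
`2 4^(mD)`, `P` a prime of `K` above `p`, `q = N(P)`, and `e` the ramification index of `P` in `L`.
If `e = 1`, then `f^φ(z^q)` is divisible by `P` for the Frobenius automorphism `φ`; this number is
not zero and its norm is bounded above in terms of `M(z)`.  If `e > 1`, then for the elements `σ` of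
the inertia group, and `e ≤ p^k ≤ p e`, the product of `z^(p^k) - y^(p^k)` over the zeros `y` of
`f^σ` is divisible by `P`.  If it is not zero for some `σ` its norm gives the bound; otherwise
`z^(p^k)` has degree at most `D` over the field fixed by the inertia group, which is unramified at
`P`.  By P. M. Neumann's theorem the Galois group of `z` has a subgroup of bounded index with a
commutator subgroup of bounded order, if its commuting probability is at least `ε`.
-/

set_option autoImplicit false

namespace Pool.Agent.Results.MP_d69e80_al.CommutingProbability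

open Filter Topology Polynomial Module
open scoped Pointwise commutatorElement TensorProduct ComplexConjugate

universe u

/-- The term `γ_{k+1}(G)` of the lower central series (so `k = 1` gives `G'`). -/
abbrev gamma (G : Type*) [Group G] (k : ℕ) : Subgroup G := (⊤ : Subgroup G).lowerCentralSeries k

/-- Conjugation by `t` on the abelianization `N^ab` (written additively) of a normal subgroup `N`,
as an endomorphism of the abelian group `N^ab`. -/
noncomputable def conjAb {G : Type*} [Group G] (N : Subgroup G) [N.Normal] (t : G) :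
    Module.End ℤ (Additive (Abelianization N)) :=
  (MonoidHom.toAdditive
    (Abelianization.map (MulAut.conjNormal t : N ≃* N).toMonoidHom)).toIntLinearMap

/-- The exponential growth rate `ρ_S = lim (1/n) log |S ^ n|`. -/
noncomputable def rho {G : Type*} [Group G] (S : Set G) : ℝ :=
  limUnder atTop (fun n : ℕ => Real.log (Nat.card ↥(S ^ n)) / n)

/-- `z` is an eigenvalue of `t` acting by conjugation on `ℂ ⊗ N^ab`. -/
def IsEigenvalue {G : Type u} [Group G] (N : Subgroup G) [N.Normal] (t : G) (z : ℂ) : Prop :=
  Module.End.HasEigenvalue (LinearMap.baseChange ℂ (conjAb N t) :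
    Module.End ℂ (ℂ ⊗[ℤ] Additive (Abelianization N))) z

/-- The class of groups, for `k`: with `Γ = γ_{k+1}(G)`, either `Γ` is nilpotent or `G / [Γ, Γ]` is
not virtually nilpotent. -/
def InClass (k : ℕ) (G : Type u) [Group G] : Prop :=
  Group.IsNilpotent (gamma G k) ∨ ¬ Group.IsVirtuallyNilpotent (G ⧸ ⁅gamma G k, gamma G k⁆)

/-- `x` is an algebraic unit (`x` and `x⁻¹` are algebraic integers) and not a root of unity. -/
def UnitNotRoot (x : ℂ) : Prop :=
  x ≠ 0 ∧ IsIntegral ℤ x ∧ IsIntegral ℤ x⁻¹ ∧ ∀ m > 0, x ^ m ≠ 1

/-- The Mahler measure of (the minimal polynomial over `ℤ` of) an algebraic integer. -/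
noncomputable def mahler (x : ℂ) : ℝ := ((minpoly ℤ x).map (Int.castRingHom ℂ)).mahlerMeasure

/-- The complex number `z` is conjugate to an element `β` of an extension `M` of degree at most `D`
of an abelian extension `L` of a number field `K` of degree at most `m`. -/
def NearAbelian (m D : ℕ) (z : ℂ) : Prop :=
  ∃ (K L M : Type) (_ : Field K) (_ : NumberField K) (_ : Field L) (_ : NumberField L)
    (_ : Field M) (_ : NumberField M) (_ : Algebra K L) (_ : Algebra L M),
    finrank ℚ K ≤ m ∧ IsAbelianGalois K L ∧ finrank L M ≤ D ∧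
      ∃ β : M, aeval β (minpoly ℚ z) = 0

/-- The proportion of the pairs of commuting elements in the Galois group of the minimal polynomial
of `z` over `ℚ`. -/
noncomputable def galProb (z : ℂ) : ℝ := ((commProb (minpoly ℚ z).Gal : ℚ) : ℝ)

/-- The subfield `K` of `ℂ` is totally real or a CM field: some endomorphism `c` of `K` becomes
complex conjugation under every embedding of `K` in `ℂ`. -/
def RealOrCM (K : IntermediateField ℚ ℂ) : Prop :=
  ∃ c : K →+* K, ∀ (σ : K →+* ℂ) (y : K), conj (σ y) = σ (c y)

/-- There is a number field `K` in `ℂ`, totally real or CM, such that `1 / conj z` is not a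
conjugate of `z` over `K`. -/
def NotReciprocal (z : ℂ) : Prop :=
  ∃ K : IntermediateField ℚ ℂ, FiniteDimensional ℚ K ∧ RealOrCM K ∧
    aeval (conj z)⁻¹ (minpoly K z) ≠ 0

/-- The growth gap with constant `c` for metabelian groups (solvability class at most 2). -/
def ClassTwoGap (c : ℝ) : Prop :=
  ∀ (G : Type) [Group G] (S : Set G), S.Finite → Subgroup.closure S = ⊤ →
    derivedSeries G 2 = ⊥ → Group.IsVirtuallyNilpotent G ∨ c ≤ rho S

/-- The growth gap with constant `c` for the groups in the class for `k`. -/
def ClassKGap (k : ℕ) (c : ℝ) : Prop :=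
  ∀ (G : Type) [Group G] (S : Set G), S.Finite → Subgroup.closure S = ⊤ →
    InClass k G → Group.IsVirtuallyNilpotent G ∨ c ≤ rho S

/-- Lehmer's problem has a positive answer for the units `x` (not roots of unity) which are
conjugate to `1 / conj x` over every totally real or CM number field, are not `NearAbelian m D`, and
whose Galois group has commuting probability less than `ε`. -/
def LehmerOutside (m D : ℕ) (ε : ℝ) : Prop :=
  ∃ δ > 0, ∀ x : ℂ, UnitNotRoot x → ¬ NotReciprocal x → ¬ NearAbelian m D x → galProb x < ε →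
    1 + δ ≤ mahler x

/-- Let `S` be a finite generating set of a group `G`, `H` a subgroup of index at most `d`, `k ≥ 1`
and `Γ = γ_{k+1}(H)`.  Suppose that `Γ` is nilpotent or that `H / [Γ, Γ]` is not virtually
nilpotent.  Then `ρ_S` exists, and:
(I) for all `m, D ≥ 1`, `G` is virtually nilpotent, or
`ρ_S ≥ 1 / (4 ^ ((m + 1) (m D + 1) + 1) 2 ^ (k + 2) (2 d - 1))`, or
`ρ_S ≥ min (1 / 180) (log M(z)) / (2 ^ (k + 2) (2 d - 1))` for an eigenvalue `z` of some `t ∈ H` on
`ℂ ⊗ Γ^ab` which is an algebraic unit, not a root of unity, and not `NearAbelian m D`;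
(II) for all `ε > 0` there is `c > 0`, depending only on `ε`, such that `G` is virtually nilpotent, or
`ρ_S ≥ c / (2 ^ k d)`, or the last inequality of (I) holds for an eigenvalue `z` as in (I) whose
Galois group has commuting probability less than `ε` (instead of not `NearAbelian m D`).
(III) For all `m, D ≥ 1` and `ε > 0`: there is a positive gap for metabelian groups if and only if
Lehmer's problem has a positive answer for the units described in `LehmerOutside m D ε`; and the same
holds for: for every `k ≥ 1` there is a positive gap for the class for `k`. -/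
theorem result :
    (∀ (k d m D : ℕ), 1 ≤ k → 1 ≤ m → 1 ≤ D → ∀ (G : Type u) [Group G] (S : Set G), S.Finite →
      Subgroup.closure S = ⊤ → ∀ H : Subgroup G, H.index ≠ 0 → H.index ≤ d → InClass k H →
      Tendsto (fun n : ℕ => Real.log (Nat.card ↥(S ^ n)) / n) atTop (𝓝 (rho S)) ∧
        (Group.IsVirtuallyNilpotent G ∨
          1 / 4 ^ ((m + 1) * (m * D + 1) + 1) / (2 ^ (k + 2) * (2 * d - 1)) ≤ rho S ∨
          ∃ (t : H) (z : ℂ), IsEigenvalue (gamma H k) t z ∧ UnitNotRoot z ∧
            ¬ NearAbelian m D z ∧
            min (1 / 180) (Real.log (mahler z)) / (2 ^ (k + 2) * (2 * d - 1)) ≤ rho S)) ∧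
    (∀ ε : ℝ, 0 < ε → ∃ c : ℝ, 0 < c ∧
      ∀ (k d : ℕ), 1 ≤ k → ∀ (G : Type u) [Group G] (S : Set G), S.Finite →
      Subgroup.closure S = ⊤ → ∀ H : Subgroup G, H.index ≠ 0 → H.index ≤ d → InClass k H →
      Tendsto (fun n : ℕ => Real.log (Nat.card ↥(S ^ n)) / n) atTop (𝓝 (rho S)) ∧
        (Group.IsVirtuallyNilpotent G ∨
          c / (2 ^ k * d) ≤ rho S ∨
          ∃ (t : H) (z : ℂ), IsEigenvalue (gamma H k) t z ∧ UnitNotRoot z ∧ galProb z < ε ∧
            min (1 / 180) (Real.log (mahler z)) / (2 ^ (k + 2) * (2 * d - 1)) ≤ rho S)) ∧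
    (∀ (m D : ℕ) (ε : ℝ), 1 ≤ m → 1 ≤ D → 0 < ε →
      ((∃ c > 0, ClassTwoGap c) ↔ LehmerOutside m D ε) ∧
      ((∀ k : ℕ, 1 ≤ k → ∃ c > 0, ClassKGap k c) ↔ LehmerOutside m D ε)) := by
  have hfin : Helper72K9.AB.S_FIN := Helper72K9.AB.fin_final
  have heps : Helper72K9.AB.S_EPS := Helper72K9.AB.eps_ hfin Helper72K9.AB.galn
  have hk180 : ∀ m D : ℕ, 1 ≤ m → 1 ≤ D → Helper72K9.AB.kap m D ≤ 1 / 180 := by
    intro m D hm hD
    unfold Helper72K9.AB.kap
    apply one_div_le_one_div_of_le (by norm_num)
    have h1 : 4 ≤ (m + 1) * (m * D + 1) + 1 := by nlinarith [Nat.mul_le_mul hm hD]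
    calc (180 : ℝ) ≤ 4 ^ 4 := by norm_num
      _ ≤ 4 ^ ((m + 1) * (m * D + 1) + 1) := pow_le_pow_right₀ (by norm_num) h1
  refine ⟨?_, ?_, ?_⟩
  · intro k d m D hk hm hD G _ S hS hgen H hH0 hHd hclass
    refine ⟨H746UG.tendsto_rho S, ?_⟩
    exact Helper72K9.AB.gap_class hk (Helper72K9.AB.EpsL.kap_pos m D) (hk180 m D hm hD)
      (fun z => NearAbelian m D z)
      (fun x hx hg => hfin m D x hg hx.2.1 hx.1 hx.2.2.2) S hS hgen H hH0 hHd hclass
  · intro ε hε
    obtain ⟨c, hc, h⟩ := heps ε hε
    refine ⟨min c (1 / 180) / 8, by positivity, ?_⟩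
    intro k d hk G _ S hS hgen H hH0 hHd hclass
    refine ⟨H746UG.tendsto_rho S, ?_⟩
    have hd : (1 : ℝ) ≤ d := by
      have : 1 ≤ d := by omega
      exact_mod_cast this
    rcases Helper72K9.AB.gap_class hk (δ := min c (1 / 180)) (by positivity) (min_le_right _ _)
      (fun z => ε ≤ galProb z)
      (fun x hx hg => (min_le_left _ _).trans (h x hx.2.1 hx.1 hx.2.2.2 hg))
      S hS hgen H hH0 hHd hclass with h1 | h1 | ⟨t, z, h1, h2, h3, h4⟩
    · exact Or.inl h1
    · right; left
      refine le_trans ?_ h1
      have hpos : (0 : ℝ) < 2 * d - 1 := by linarith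
      calc min c (1 / 180) / 8 / (2 ^ k * d) = min c (1 / 180) / (2 ^ (k + 2) * (2 * d)) := by
            field_simp
            ring
        _ ≤ min c (1 / 180) / (2 ^ (k + 2) * (2 * d - 1)) := by
            apply div_le_div_of_nonneg_left (by positivity) (by positivity)
            gcongr
            linarith
    · exact Or.inr (Or.inr ⟨t, z, h1, h2, not_le.1 h3, h4⟩)
  · intro m D ε hm hD hε
    obtain ⟨c, hc, h⟩ := heps ε hε
    have h1 := Helper72K9.AB.equiv_class
      (δ := min c (Helper72K9.AB.kap m D)) (lt_min hc (Helper72K9.AB.EpsL.kap_pos m D))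
      (fun z => NearAbelian m D z ∨ ε ≤ galProb z) (by
        rintro x hx (hg | hg)
        · exact (min_le_right _ _).trans (hfin m D x hg hx.2.1 hx.1 hx.2.2.2)
        · exact (min_le_left _ _).trans (h x hx.2.1 hx.1 hx.2.2.2 hg))
    have e : Helper72K9.AB.LehmC (fun z => NearAbelian m D z ∨ ε ≤ galProb z) ↔
        LehmerOutside m D ε := by
      constructor
      · rintro ⟨δ, hδ, h2⟩
        exact ⟨δ, hδ, fun x h3 h4 h5 h6 => h2 x h3 h4 (fun h7 => by
          rcases h7 with h7 | h7
          · exact h5 h7
          · exact absurd h6 (not_lt.2 h7))⟩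
      · rintro ⟨δ, hδ, h2⟩
        refine ⟨δ, hδ, fun x h3 h4 h5 => h2 x h3 h4 (fun h6 => h5 (Or.inl h6)) ?_⟩
        by_contra h6
        exact h5 (Or.inr (not_lt.1 h6))
    exact ⟨h1.1.trans e, h1.2.trans e⟩

end Pool.Agent.Results.MP_d69e80_al.CommutingProbability
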