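import Mathlib
import Pool.Agent.Helper39K9.CD.Fin

/-!
# Uniform growth of solvable groups with one infinite constituent of small degree

`G = ⟨S⟩`, `H` is a solvable subgroup of index at most `q`, and `F 0 ≥ F 1 ≥ … ≥ F l` are normal
subgroups of `H` such that `H / F 0` is virtually nilpotent or metabelian, the factors
`F i / F (i + 1)` are nilpotent, and the abelianizations of the factors have finite torsion-free rank
and finite torsion.  Suppose that for every factor `F i / F (i + 1)` such that the space
`Hom (F i / F (i + 1), ℂ)` has an irreducible `H`-invariant subspace on which `H` acts through an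
infinite group, it also has such a subspace of dimension at most `n`.  Then the growth of `S` is
bounded below in terms of `n`, `q` and the Mahler measure of one algebraic unit (or `H / F l` is
virtually nilpotent).  The ranks, the nilpotency classes of the factors, the length `l` and the
derived length of `H` do not matter, and only the smallest infinite constituent is bounded.

Example: `H` polycyclic, `l = 1`, `F 0` the Fitting subgroup of `H`, and `F 1 = 1`.

The starting result `DerivedFactorRanks` is the case where `F i` is the derived subgroup `H^(i + 2)`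
and all the ranks are at most `n`.
-/

set_option autoImplicit false

namespace Pool.Agent.Results.MP_d69e80_al.ConstituentDegrees

open Filter Topology Polynomial
open scoped Pointwise

universe u

section defs

variable {H : Type u} [Group H]

/-- The space of all homomorphisms `f : A → (ℂ, +)` that vanish on `A ∩ B`; for `B ≤ A` normal this
is `Hom (A / B, ℂ)`. -/
def Hom (A B : Subgroup H) : Submodule ℂ (Additive A →+ ℂ) where
  carrier := {f | ∀ a : A, (a : H) ∈ B → f (Additive.ofMul a) = 0}
  zero_mem' := fun _ _ => rfl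
  add_mem' := by
    intro f g hf hg a ha
    rw [AddMonoidHom.add_apply, hf a ha, hg a ha, add_zero]
  smul_mem' := by
    intro c f hf a ha
    show c • f (Additive.ofMul a) = 0
    rw [hf a ha, smul_zero]

/-- The action of `h ∈ H` on `f : A → ℂ` (`A` normal): `(h f) (a) = f (h⁻¹ a h)`. -/
def act (A : Subgroup H) [A.Normal] (h : H) (f : Additive A →+ ℂ) : Additive A →+ ℂ :=
  f.comp (MonoidHom.toAdditive (MulAut.conjNormal h⁻¹ : A ≃* A).toMonoidHom)

/-- `W` is a nonzero `H`-invariant subspace. -/
def Invariant (A : Subgroup H) [A.Normal] (W : Submodule ℂ (Additive A →+ ℂ)) : Prop :=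
  W ≠ ⊥ ∧ ∀ h : H, ∀ f ∈ W, act A h f ∈ W

/-- `W` is an irreducible `H`-invariant subspace of `Hom (A / B, ℂ)` and no subgroup of finite index
of `H` acts trivially on `W` (the group of the operators on `W` given by `H` is infinite). -/
def InfiniteIrreducible (A B : Subgroup H) [A.Normal] (W : Submodule ℂ (Additive A →+ ℂ)) : Prop :=
  W ≤ Hom A B ∧ (Invariant A W ∧ ∀ W' ≤ W, Invariant A W' → W' = W) ∧
    ∀ N : Subgroup H, N.FiniteIndex → ∃ h ∈ N, ∃ f ∈ W, act A h f ≠ f

/-- The abelianization of `A / B`, written additively. -/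
abbrev FactorAb (A B : Subgroup H) [B.Normal] : Type u :=
  Additive (Abelianization (A ⧸ B.subgroupOf A))

/-- The conditions on the factor `A / B`: it is nilpotent, its abelianization has finite
torsion-free rank and finite torsion, and if `Hom (A / B, ℂ)` has an infinite irreducible subspace,
then it has one of dimension at most `n`. -/
structure Factor (A B : Subgroup H) [A.Normal] [B.Normal] (n : ℕ) : Prop where
  le : B ≤ A
  nilpotent : Group.IsNilpotent (A ⧸ B.subgroupOf A)
  finite_rank : Module.rank ℤ (FactorAb A B) < Cardinal.aleph0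
  finite_torsion : {b : FactorAb A B | ∃ k : ℕ, 0 < k ∧ k • b = 0}.Finite
  degree : (∃ W, InfiniteIrreducible A B W) →
    ∃ W, InfiniteIrreducible A B W ∧ Module.finrank ℂ W ≤ n

/-- `H / F 0` is virtually nilpotent or metabelian, and the factors `F i / F (i + 1)`, `i < l`,
satisfy the conditions above. -/
structure Series (n l : ℕ) (F : ℕ → Subgroup H) [∀ i, (F i).Normal] : Prop where
  base : Group.IsVirtuallyNilpotent (H ⧸ F 0) ∨ derivedSeries H 2 ≤ F 0
  factor : ∀ i < l, Factor (F i) (F (i + 1)) n

/-- `x` is an eigenvalue of an element of `H` on `Hom (F i / F (i + 1), ℂ)` for some `i < l`. -/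
def IsEigenvalue (l : ℕ) (F : ℕ → Subgroup H) [∀ i, (F i).Normal] (x : ℂ) : Prop :=
  ∃ i < l, ∃ t : H, ∃ f ∈ Hom (F i) (F (i + 1)), f ≠ 0 ∧ act (F i) t f = x • f

end defs

/-- The minimum of `n ^ 21` and `n ^ (⌊log₂ n⌋ + 3)`. -/
def J (n : ℕ) : ℕ := min (n ^ 21) (n ^ (Nat.log 2 n + 3))

/-- The Mahler measure of (the minimal polynomial over `ℤ` of) an algebraic integer. -/
noncomputable def mahler (x : ℂ) : ℝ := ((minpoly ℤ x).map (Int.castRingHom ℂ)).mahlerMeasure

/-- `x` is an algebraic unit and not a root of unity. -/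
def UnitNotRoot (x : ℂ) : Prop :=
  x ≠ 0 ∧ IsIntegral ℤ x ∧ IsIntegral ℤ x⁻¹ ∧ ∀ m > 0, x ^ m ≠ 1

/-- The exponential growth rate `ρ_S = lim (1/k) log |S ^ k|`. -/
noncomputable def rho {G : Type u} [Group G] (S : Set G) : ℝ :=
  limUnder atTop (fun k : ℕ => Real.log (Nat.card ↥(S ^ k)) / k)

/-- `S` is a finite generating set of `G`, `H` is a solvable subgroup of index at most `q`, `n ≥ 1`,
the normal subgroups `F i` of `H` have the properties `Series n l F`, and `D ≥ J n`, or `D ≥ n` and
`H / F i` is metabelian for all `i < l`. -/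
def Setting {G : Type u} [Group G] (S : Set G) (H : Subgroup G) (q n l D : ℕ) (F : ℕ → Subgroup H)
    [∀ i, (F i).Normal] : Prop :=
  S.Finite ∧ Subgroup.closure S = ⊤ ∧ H.index ≠ 0 ∧ H.index ≤ q ∧ Group.IsSolvable H ∧ 1 ≤ n ∧
    Series n l F ∧ (J n ≤ D ∨ (n ≤ D ∧ ∀ i < l, derivedSeries H 2 ≤ F i))

/-- `r ≥ log 2 / (4 (2 D - 1) (2 q - 1))` or `r ≥ min (1, log M(x)) / (32 (2 D - 1) (2 q - 1))` for
an algebraic unit `x` which is not a root of unity and which, if `H / F 0` is virtually nilpotent, is
an eigenvalue of an element of `H` on `Hom (F i / F (i + 1), ℂ)`, for some `i < l`. -/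
def MahlerBound {H : Type u} [Group H] (q l D : ℕ) (F : ℕ → Subgroup H) [∀ i, (F i).Normal]
    (r : ℝ) : Prop :=
  Real.log 2 / (4 * ((2 * D - 1) * (2 * q - 1))) ≤ r ∨
    ∃ x : ℂ, UnitNotRoot x ∧ (Group.IsVirtuallyNilpotent (H ⧸ F 0) → IsEigenvalue l F x) ∧
      min 1 (Real.log (mahler x)) / (32 * ((2 * D - 1) * (2 * q - 1))) ≤ r

/-- If `H / F 0` is virtually nilpotent and the torsion-free ranks of the abelianizations of all
`F i / F (i + 1)`, `i < l`, are at most `m`, then `r ≥ c / (D q (log (2 m)) ^ 3)`. -/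
def RankBound {H : Type u} [Group H] (c : ℝ) (q l D : ℕ) (F : ℕ → Subgroup H)
    [∀ i, (F i).Normal] (r : ℝ) : Prop :=
  ∀ m : ℕ, 1 ≤ m → Group.IsVirtuallyNilpotent (H ⧸ F 0) →
    (∀ i < l, Module.rank ℤ (FactorAb (F i) (F (i + 1))) ≤ (m : Cardinal.{u})) →
    c / (D * q * Real.log (2 * m) ^ 3) ≤ r

/-- The class of the groups `G` that have a solvable subgroup `H` of index at most `q` with a series
as above (for `n`) that ends with the trivial subgroup. -/
def InClass (n q : ℕ) (G : Type u) [Group G] : Prop :=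
  ∃ H : Subgroup G, H.index ≠ 0 ∧ H.index ≤ q ∧ Group.IsSolvable H ∧
    ∃ (l : ℕ) (F : ℕ → Subgroup H) (_ : ∀ i, (F i).Normal), Series n l F ∧ F l = ⊥

/-- The growth gap with constant `c` for the class. -/
def ClassGap (n q : ℕ) (c : ℝ) : Prop :=
  ∀ (G : Type) [Group G] (S : Set G), S.Finite → Subgroup.closure S = ⊤ → InClass n q G →
    Group.IsVirtuallyNilpotent G ∨ c ≤ rho S

/-- The growth gap with constant `c` for metabelian groups. -/
def MetabelianGap (c : ℝ) : Prop :=
  ∀ (G : Type) [Group G] (S : Set G), S.Finite → Subgroup.closure S = ⊤ →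
    derivedSeries G 2 = ⊥ → Group.IsVirtuallyNilpotent G ∨ c ≤ rho S

/-- Lehmer's problem has a positive answer for algebraic units. -/
def LehmerForUnits : Prop := ∃ ε > 0, ∀ x : ℂ, UnitNotRoot x → 1 + ε ≤ mahler x

/-- (I) Let `S` be a finite generating set of `G`, let `H` be a solvable subgroup of index at most
`q`, let `n ≥ 1`, and let `F 0 ≥ … ≥ F l` be normal subgroups of `H` with the properties `Series n l`.
Let `D ≥ J n = min (n ^ 21, n ^ (⌊log₂ n⌋ + 3))`, or `D ≥ n` if `H / F i` is metabelian for all
`i < l`.  Then `ρ_S` exists, and `H / F l` is virtually nilpotent (so that `G` is virtually nilpotent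
if `F l = 1`), or
(1) `ρ_S ≥ log 2 / (4 (2 D - 1) (2 q - 1))`, or
`ρ_S ≥ min (1, log M(x)) / (32 (2 D - 1) (2 q - 1))` for an algebraic unit `x` which is not a root of
unity and which, if `H / F 0` is virtually nilpotent, is an eigenvalue of an element of `H` on
`Hom (F i / F (i + 1), ℂ)`, for some `i < l`; and
(2) if `H / F 0` is virtually nilpotent and the ranks of the abelianizations of all `F i / F (i + 1)`
are at most `m` then `ρ_S ≥ c / (D q (log (2 m)) ^ 3)`, with an absolute constant `c > 0`.
(II) For all `n, q ≥ 1` there is a positive gap for the class of all groups with a solvable subgroup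
of index at most `q` that has a series as above with `F l = 1`, if and only if there is a positive
gap for metabelian groups, and if and only if Lehmer's problem has a positive answer for algebraic
units. -/
theorem result :
    (∃ c : ℝ, 0 < c ∧
      ∀ (G : Type u) [Group G] (S : Set G) (H : Subgroup G) (q n l D : ℕ) (F : ℕ → Subgroup H)
        [∀ i, (F i).Normal], Setting S H q n l D F →
      Tendsto (fun k : ℕ => Real.log (Nat.card ↥(S ^ k)) / k) atTop (𝓝 (rho S)) ∧
      ((Group.IsVirtuallyNilpotent (H ⧸ F l) ∧ (F l = ⊥ → Group.IsVirtuallyNilpotent G)) ∨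
        (MahlerBound q l D F (rho S) ∧ RankBound c q l D F (rho S)))) ∧
    (∀ n q : ℕ, 1 ≤ n → 1 ≤ q →
      ((∃ c > 0, ClassGap n q c) ↔ ∃ c > 0, MetabelianGap c) ∧
      ((∃ c > 0, ClassGap n q c) ↔ LehmerForUnits)) := by
  have hser : ∀ {H : Type u} [Group H] (n l : ℕ) (F : ℕ → Subgroup H) [∀ i, (F i).Normal],
      Series n l F → Helper39K9.CD.Srs n l F := by
    intro H _ n l F _ hs
    refine ⟨hs.base, fun i hi => ?_⟩
    have h := hs.factor i hi
    exact ⟨h.le, h.nilpotent, h.finite_rank, h.finite_torsion, h.degree⟩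
  have hcls : ∀ (n q : ℕ) (G : Type) [Group G], InClass n q G ↔ Helper39K9.CD.Cls n q G := by
    intro n q G _
    constructor
    · rintro ⟨H, h1, h2, h3, l, F, hF, hs, hl⟩
      refine ⟨H, h1, h2, h3, l, F, hF, ⟨hs.base, fun i hi => ?_⟩, hl⟩
      have h := hs.factor i hi
      exact ⟨h.le, h.nilpotent, h.finite_rank, h.finite_torsion, h.degree⟩
    · rintro ⟨H, h1, h2, h3, l, F, hF, hs, hl⟩
      refine ⟨H, h1, h2, h3, l, F, hF, ⟨hs.base, fun i hi => ?_⟩, hl⟩
      have h := hs.factor i hi
      exact ⟨h.le, h.nil, h.rank, h.tors, h.irr⟩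
  constructor
  · obtain ⟨c, hc, h⟩ := Helper39K9.CD.main2.{u}
    refine ⟨c, hc, ?_⟩
    rintro G _ S H q n l D F _ ⟨hfin, hgen, hH0, hHq, hsol, hn, hs, hD⟩
    exact ⟨H746UG.tendsto_rho S, h G S H q n l D F hfin hgen hH0 hHq hsol hn (hser n l F hs) hD⟩
  · intro n q hn hq
    have hg : ∀ c, ClassGap n q c ↔ Helper39K9.CD.CGap n q c := by
      intro c
      constructor
      · intro h G _ S hS hgen hG
        exact h G S hS hgen ((hcls n q G).2 hG)
      · intro h G _ S hS hgen hG
        exact h G S hS hgen ((hcls n q G).1 hG)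
    simp only [hg]
    exact Helper39K9.CD.equiv hn hq

end Pool.Agent.Results.MP_d69e80_al.ConstituentDegrees
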