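import Mathlib
import Pool.Agent.Helper28K9.RK.Ca
import Pool.Agent.Helper28K9.RK.Ev
import Pool.Agent.Helper28K9.RK.GenE
import Pool.Agent.Helper28K9.RK.GenF
import Pool.Agent.Helper28K9.RK.GenG

/-!
# An absolute growth gap for groups with an eigencharacter of rank two

Let `H` be a subgroup of index at most `d` of a group `G = ⟨S⟩`, `Γ` a normal subgroup of `H` with
`H / Γ` nilpotent (of any class), and suppose that the action of `H` by conjugation on
`Hom (Γ, F)`, `F` a field, has an eigenvector with a large character `χ`: one of its values is not an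
algebraic unit, or two of its values are multiplicatively independent.  Then the growth rate is at
least `c / (2 d - 1)` with an absolute constant `c`.  (For instance, for an affine action
`z ↦ χ (g) z + b (g)` of `G` on `F` with a non-abelian image take `Γ = ker χ` and `φ = b`.)

So if the derived group `H'` is nilpotent (or `H / H''` is not virtually nilpotent), then `G` is
virtually nilpotent, or the growth rate is at least `c / (2 d - 1)`, or `H' / H''` is finitely
generated and there is an eigencharacter of rank one with values algebraic units; in the last case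
there is a lower bound by a Mahler measure.

Proof.  The first statement is reduced to affine actions by the vanishing of the cohomology of
nilpotent groups with nontrivial coefficients.
Let `u = s t`, `v = t s` be products of two generators which act differently.  If `χ (s₁)`
is not an algebraic unit for a generator `s₁`, then so is `χ (u)` or `χ (u s₁)`, and a free
semigroup is found.  Otherwise the characteristic is zero; let `x = χ (s₁)`, and `ξ = χ (u) χ (s₂)`
or `χ (u) χ (s₂) ^ 2` multiplicatively independent of `x`, `K = ℚ (x, ξ)`, `D = [K : ℚ]`; `x` and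
`ξ` are algebraic units.  Consider the words made of periods: `J` times `u` or `v`, followed by `s₂`
(or `s₂ ^ 2`), then `J` times a word with linear part `ψ = x` or `x ξ`.  Put `w = ξ ψ`, `Q = w ^ J`.
The images of these words are given by the sums `∑ ε (m, j) Q ^ m ξ ^ j` with digits `0, 1`, and for
a suitable prime `J` the powers `ξ ^ j`, `j < [K : ℚ (w)]`, are linearly independent over `ℚ (Q)`;
so the growth rate is at least a constant times `min (1, [K : ℚ (w)] log M (w)) = min (1, D h (w))`.
So it is enough to have a lower bound for `D max (h (x), h (ξ))`: this is the problem of Lehmer in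
dimension two.  We prove the weak form `D max (h (x), h (ξ)) ≥ D ^ (1 / 100)` for `D` large: by the
pigeonhole principle there are polynomials in two variables with small coefficients vanishing to
high order at `(x, ξ)`; they vanish at `(x ^ p, ξ ^ p)` for the unramified primes `p` in a suitable
interval; the pigeonhole principle, applied with the rank of the evaluation at these points, gives a
contradiction, by the theory of atoms (Kneser's theorem for field extensions), if there is no
relation of small degree between `x ^ p` and `ξ ^ p`; if there is one, the curve is treated by a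
similar argument and Bezout's theorem, and by Dobrowolski's theorem if it is a coset of a subtorus.

If `H' / H''` is not finitely generated, then it has a quotient which is not finitely generated and
all of whose proper quotients (as modules) are; this is a torsion-free module over a domain `D`
which is a quotient of the group ring, and there is an eigenvector over the field of fractions of
`D`; `D` is not finite over `ℤ`, so a value of the character is not an algebraic unit.
-/

set_option autoImplicit false

namespace Pool.Agent.Results.MP_d69e80_al.RankTwoActions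

open Filter Topology
open scoped Pointwise commutatorElement

open Pool.Agent Pool.Agent.Helper28K9.RKF

universe u v

/-- Some value of `χ` is not an algebraic unit (it or its inverse is not integral over `ℤ`), or two
of the values are multiplicatively independent. -/
def Large {H : Type u} [Group H] {F : Type v} [Field F] (χ : H →* Fˣ) : Prop :=
  (∃ g : H, ¬ (IsIntegral ℤ ((χ g : Fˣ) : F) ∧ IsIntegral ℤ (((χ g)⁻¹ : Fˣ) : F))) ∨
  ∃ g h : H, ∀ a b : ℤ, (χ g) ^ a * (χ h) ^ b = 1 → a = 0 ∧ b = 0

/-- The restriction of `φ` to `Γ` is a nonzero homomorphism to `F` and an eigenvector with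
character `χ` of the action of `H` by conjugation. -/
def Eigenvector {H : Type u} [Group H] {F : Type v} [Field F] (Γ : Subgroup H) (χ : H →* Fˣ)
    (φ : H → F) : Prop :=
  (∀ x ∈ Γ, ∀ y ∈ Γ, φ (x * y) = φ x + φ y) ∧
  (∀ g : H, ∀ x ∈ Γ, φ (g * x * g⁻¹) = χ g * φ x) ∧ ∃ x ∈ Γ, φ x ≠ 0

/-- `H` has a large eigencharacter: for some normal subgroup `Γ` of `H` with `H / Γ` nilpotent and
some field `F`, the action of `H` by conjugation on `Hom (Γ, F)` has an eigenvector with a large
character. -/
def HasLarge (H : Type u) [Group H] : Prop :=
  ∃ (Γ : Subgroup H) (_ : Γ.Normal), Group.IsNilpotent (H ⧸ Γ) ∧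
    ∃ (F : Type v) (_ : Field F) (χ : H →* Fˣ) (φ : H → F), Eigenvector Γ χ φ ∧ Large χ

/-- The derived group `H'` is nilpotent, or `H / H''` is not virtually nilpotent. -/
def InClass (H : Type u) [Group H] : Prop :=
  Group.IsNilpotent (commutator H) ∨
    ¬ Group.IsVirtuallyNilpotent (H ⧸ ⁅commutator H, commutator H⁆)

/-- The Mahler measure of (the minimal polynomial over `ℤ` of) an algebraic integer. -/
noncomputable def mahler (x : ℂ) : ℝ := ((minpoly ℤ x).map (Int.castRingHom ℂ)).mahlerMeasure

/-- `H' / H''` is finitely generated, and the action of `H` on `Hom (H', ℂ)` has an eigenvector with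
an infinite character `χ` which is not large (so its values are algebraic units, any two of them
multiplicatively dependent), and `min (1 / 180) (log (M (χ t)))` is at most `r` for a value `χ t`
which is not a root of unity. -/
def RankOneCase (H : Type u) [Group H] (r : ℝ) : Prop :=
  Group.FG (Abelianization (commutator H)) ∧
    ∃ (χ : H →* ℂˣ) (φ : H → ℂ) (t : H), Eigenvector (commutator H) χ φ ∧ ¬ Large χ ∧
      (∀ n > 0, χ t ^ n ≠ 1) ∧ min (1 / 180) (Real.log (mahler (χ t))) ≤ r

lemma big_of_large {H : Type u} [Group H] {F : Type v} [Field F] {χ : H →* Fˣ} (h : Large χ) :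
    (∃ g, ¬ AlgUnit ((χ g : Fˣ) : F)) ∨ ∃ g h, Ind ((χ g : Fˣ) : F) ((χ h : Fˣ) : F) := by
  rcases h with ⟨g, hg⟩ | ⟨g, g', h⟩
  · left
    refine ⟨g, fun h => hg ⟨h.1, ?_⟩⟩
    rw [Units.val_inv_eq_inv_val]
    exact h.2
  · right
    refine ⟨g, g', fun a b hab => h a b ?_⟩
    ext
    push_cast
    exact hab

/-- **the growth gap for groups with an eigencharacter of rank two** -/
theorem result : ∃ c : ℝ, 0 < c ∧ ∀ (G : Type u) [Group G] (S : Set G), S.Finite →
    Subgroup.closure S = ⊤ → ∃ ρ : ℝ,
      Tendsto (fun n : ℕ => Real.log (Nat.card ↥(S ^ n)) / n) atTop (𝓝 ρ) ∧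
      ∀ (H : Subgroup G) (d : ℕ), H.index ≠ 0 → H.index ≤ d →
        (HasLarge.{u, v} H → c / (2 * d - 1) ≤ ρ) ∧
        (InClass H → Group.IsVirtuallyNilpotent G ∨ c / (2 * d - 1) ≤ ρ ∨
          RankOneCase H (8 * (2 * d - 1) * ρ)) := by
  obtain ⟨c, hc, hgrow⟩ := gapF_ok.{u, v}
  obtain ⟨c', hc', hgrow'⟩ := gapF_ok.{u, u}
  obtain ⟨c'', hc'', hgrow''⟩ := gapF_ok.{u, 0}
  have hl2 : 0 < Real.log 2 := Real.log_pos (by norm_num)
  refine ⟨min (min c c') (min c'' (Real.log 2 / 4)),
    lt_min (lt_min hc hc') (lt_min hc'' (by positivity)), ?_⟩
  intro G _ S hfin hgen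
  refine ⟨H746UG.rho S, H746UG.tendsto_rho S, ?_⟩
  intro H d hH0 hHd
  have hd : 1 ≤ d := by omega
  have hpos : (0 : ℝ) < 2 * d - 1 := by
    have : (1 : ℝ) ≤ d := by exact_mod_cast hd
    linarith
  refine ⟨?_, ?_⟩
  · rintro ⟨Γ, hΓ, hnil, F, _, χ, φ, hφ, hχ⟩
    exact (div_le_div_of_nonneg_right ((min_le_left _ _).trans (min_le_left _ _)) hpos.le).trans
      (eig_gap hgrow S hfin hgen H d hH0 hHd Γ hΓ hnil F χ φ hφ (big_of_large hχ))
  · intro hcls
    have hnil : Group.IsNilpotent (H ⧸ commutator H) :=
      inferInstanceAs (Group.IsNilpotent (Abelianization H))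
    by_cases hfg : Group.FG (Abelianization (commutator H))
    · rcases tri ev S hfin hgen H hH0 hHd hcls hfg with h | h | ⟨χ, φ, t, h1, h2, h3, h4⟩
      · exact Or.inl h
      · right; left
        refine le_trans (div_le_div_of_nonneg_right
          ((min_le_right _ _).trans (min_le_right _ _)) hpos.le) ?_
        rw [div_div]
        exact h
      · right
        by_cases hL : Large χ
        · left
          exact (div_le_div_of_nonneg_right
            ((min_le_right _ _).trans (min_le_left _ _)) hpos.le).trans
            (eig_gap hgrow'' S hfin hgen H d hH0 hHd (commutator H) inferInstance hnil ℂ χ φ h1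
              (big_of_large hL))
        · right
          refine ⟨hfg, χ, φ, t, h1, hL, ?_, ?_⟩
          · intro n hn h5
            apply h3 n hn
            rw [← Units.val_pow_eq_pow_val, h5, Units.val_one]
          · have h6 := (R976.UG.eta_boundC (Units.ne_zero _) h2 h3 (lt_min (by norm_num)
                (Real.log_pos (W963.GE.MM_gt _ h2 (Units.ne_zero _) h3)))
                (min_le_left (1 / 180 : ℝ) _) (min_le_right _ _))
            rw [div_le_iff₀ (by positivity)] at h4
            have h7 : mahler ((χ t : ℂˣ) : ℂ) = W963.GE.MM ((χ t : ℂˣ) : ℂ) := rfl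
            rw [h7]
            linarith
    · right; left
      obtain ⟨F, hF, χ, φ, hφ, g, hg⟩ := npoly ca H (W963.GE.TT S H d)
        (W963.GE.TT_finite S hfin H d) (W963.GE.TT_gen S hgen H hH0 hHd) hfg
      exact (div_le_div_of_nonneg_right ((min_le_left _ _).trans (min_le_right _ _)) hpos.le).trans
        (eig_gap hgrow' S hfin hgen H d hH0 hHd (commutator H) inferInstance hnil F χ φ hφ
          (Or.inl ⟨g, fun h => hg h.1⟩))

end Pool.Agent.Results.MP_d69e80_al.RankTwoActions
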