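import Mathlib
import Pool.Agent.Helper66K9.UC.Gap

/-!
# Uniform growth gap when the conjugates of the eigenvalues are unevenly distributed in sectors

`G = ⟨S⟩`, `H` is a subgroup of index at most `d`, `Γ = γ_{k+1}(H)` is nilpotent (or `H/[Γ,Γ]` is
not virtually nilpotent).  There is an absolute constant `c > 0` such that, for every `N ≥ 1`, `G` is
virtually nilpotent, or `ρ_S ≥ c / (2 ^ k d (log 2N) ^ 3)`, or `ρ_S ≥ c' min (1 / 180, log M(z))`,
with `c' = 1 / (2 ^ (k + 2) (2 d - 1))`, for an eigenvalue `z` of some `t ∈ H` acting on `ℂ ⊗ Γ^ab`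
which is an algebraic unit, not a root of unity, and whose conjugates `w` are evenly distributed: for
every `m ≥ 1` with `m ^ 2 ≤ deg z`, each closed sector of angle `2 π α` contains `w ^ m` for
`α deg z + δ` conjugates `w`, with `|δ| < deg z / N`.

So there is a growth gap, polynomial in `log 2N`, if for each of these eigenvalues `z` for instance
some sector of angle `2 π / N` contains no conjugates of `z`.  (For `N ≥ 2 deg z` there is no
condition on `z`.)

The number-theoretic ingredient is the bound `log M(z) ≥ c / (log 2N) ^ 3` for all algebraic integers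
`z ≠ 0` that are not roots of unity and are `Uneven N`.  Proof: let `b_i` be the conjugates `w_i` of
`z`, reflected to the closed unit disc.  Since the discriminant of `z` is at least 1 in absolute
value, `∑ r ^ m |∑ b_i ^ m| ^ 2 / m = - ∑ log |1 - r b_i conj b_j|` is at most
`2 n log M(z) + n log n + n` for `r = 1 - 1 / n`, `n = deg z`.  This bounds the Weyl sums
`∑ (w_i / |w_i|) ^ m`, and so the discrepancy (discrete Fejér kernels), if `n` is larger than a power
of `2N` and `log M(z) ≤ 1`.  For small `n` the bound is that of Dobrowolski's theorem.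
-/

set_option autoImplicit false

namespace Pool.Agent.Results.MP_d69e80_al.UnevenConjugates

open Filter Topology Polynomial
open scoped Pointwise commutatorElement TensorProduct

universe u

/-- The term `γ_{k+1}(G)` of the lower central series (so `k = 1` gives `G'`). -/
abbrev gamma (G : Type*) [Group G] (k : ℕ) : Subgroup G := (⊤ : Subgroup G).lowerCentralSeries k

/-- Conjugation by `t` on the abelianization `N^ab` (written additively) of a normal subgroup `N`,
as an endomorphism of the abelian group `N^ab`. -/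
noncomputable def conjAb {G : Type*} [Group G] (N : Subgroup G) [N.Normal] (t : G) :
    Module.End ℤ (Additive (Abelianization N)) :=
  (MonoidHom.toAdditive
    (Abelianization.map (MulAut.conjNormal t : N ≃* N).toMonoidHom)).toIntLinearMap

/-- `z` is an eigenvalue of `t` acting by conjugation on `ℂ ⊗ N^ab`. -/
def IsEigenvalue {G : Type u} [Group G] (N : Subgroup G) [N.Normal] (t : G) (z : ℂ) : Prop :=
  Module.End.HasEigenvalue (LinearMap.baseChange ℂ (conjAb N t) :
    Module.End ℂ (ℂ ⊗[ℤ] Additive (Abelianization N))) z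

/-- The class of groups, for `k`: with `Γ = γ_{k+1}(G)`, either `Γ` is nilpotent or `G / [Γ, Γ]` is
not virtually nilpotent. -/
def InClass (k : ℕ) (G : Type u) [Group G] : Prop :=
  Group.IsNilpotent (gamma G k) ∨ ¬ Group.IsVirtuallyNilpotent (G ⧸ ⁅gamma G k, gamma G k⁆)

/-- `x` is an algebraic unit (`x` and `x⁻¹` are algebraic integers) and not a root of unity. -/
def UnitNotRoot (x : ℂ) : Prop :=
  x ≠ 0 ∧ IsIntegral ℤ x ∧ IsIntegral ℤ x⁻¹ ∧ ∀ m > 0, x ^ m ≠ 1

/-- The Mahler measure of (the minimal polynomial over `ℤ` of) an algebraic integer. -/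
noncomputable def mahler (x : ℂ) : ℝ := ((minpoly ℤ x).map (Int.castRingHom ℂ)).mahlerMeasure

/-- The degree of an algebraic integer. -/
noncomputable def deg (x : ℂ) : ℕ := (minpoly ℤ x).natDegree

/-- The closed sector of the complex numbers `w` that have an argument in
`[2 π a, 2 π (a + α)]`. -/
def Sector (a α : ℝ) : Set ℂ :=
  {w | ∃ t : ℝ, 0 ≤ t ∧ t ≤ α ∧ w = ‖w‖ * Complex.exp (2 * Real.pi * (a + t) * Complex.I)}

/-- The number of conjugates `w` of the algebraic integer `z` for which `w ^ m` is in the sector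
`Sector a α`. -/
noncomputable def numConj (z : ℂ) (m : ℕ) (a α : ℝ) : ℕ :=
  Nat.card {w : ℂ // aeval w (minpoly ℤ z) = 0 ∧ w ^ m ∈ Sector a α}

/-- For some `m ≥ 1` with `m ^ 2 ≤ deg z` and some sector of angle `2 π α`, `0 ≤ α ≤ 1`, the number
of conjugates `w` of `z` for which `w ^ m` is in the sector differs from its mean value `α deg z` by
at least `deg z / N`. -/
def Uneven (N : ℕ) (z : ℂ) : Prop :=
  ∃ (m : ℕ) (a α : ℝ), 1 ≤ m ∧ m ^ 2 ≤ deg z ∧ 0 ≤ α ∧ α ≤ 1 ∧
    (deg z : ℝ) / N ≤ |(numConj z m a α : ℝ) - α * deg z|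

lemma sector_eq (a α : ℝ) : Sector a α = Helper66K9.UC.Sec a α := by
  unfold Sector Helper66K9.UC.Sec Helper66K9.UC.e
  push_cast
  rfl

lemma uneven_of {N : ℕ} {z : ℂ} (h : Uneven N z) : Helper66K9.UC.UnevenU N z := by
  obtain ⟨m, a, α, hm, hmd, h0, h1, h2⟩ := h
  refine ⟨m, a, α, hm, hmd, h0, h1, ?_⟩
  unfold numConj at h2
  rw [sector_eq] at h2
  exact h2

/-- There is a constant `c > 0` with the following property.  Let `S` be a finite generating set of
a group `G`, `H` a subgroup of index at most `d`, `k ≥ 1` and `Γ = γ_{k+1}(H)`.  Suppose that `Γ` is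
nilpotent or that `H / [Γ, Γ]` is not virtually nilpotent.  Then `ρ_S` exists and, for all `N ≥ 1`,
either `G` is virtually nilpotent, or `ρ_S ≥ c / (2 ^ k d (log 2N) ^ 3)`, or
`ρ_S ≥ min (1 / 180) (log M(z)) / (2 ^ (k + 2) (2 d - 1))` for an eigenvalue `z` of some `t ∈ H` on
`ℂ ⊗ Γ^ab` which is an algebraic unit, not a root of unity, and not `Uneven N`. -/
theorem result : ∃ c : ℝ, 0 < c ∧
    ∀ (k d N : ℕ), 1 ≤ k → 1 ≤ N → ∀ (G : Type u) [Group G] (S : Set G), S.Finite →
      Subgroup.closure S = ⊤ → ∀ H : Subgroup G, H.index ≠ 0 → H.index ≤ d → InClass k H →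
      ∃ ρ : ℝ, Tendsto (fun n : ℕ => Real.log (Nat.card ↥(S ^ n)) / n) atTop (𝓝 ρ) ∧
        (Group.IsVirtuallyNilpotent G ∨
          c / (2 ^ k * d * Real.log (2 * N) ^ 3) ≤ ρ ∨
          ∃ (t : H) (z : ℂ), IsEigenvalue (gamma H k) t z ∧ UnitNotRoot z ∧ ¬ Uneven N z ∧
            min (1 / 180) (Real.log (mahler z)) / (2 ^ (k + 2) * (2 * d - 1)) ≤ ρ) := by
  obtain ⟨c, hc, h⟩ := Helper66K9.UC.gap_uneven.{u}
  refine ⟨c, hc, fun k d N hk hN G _ S hfin hgen H hH0 hHd hclass =>
    ⟨H746UG.rho S, H746UG.tendsto_rho S, ?_⟩⟩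
  rcases h k d N hk hN G S hfin hgen H hH0 hHd hclass with h1 | h1 | ⟨t, z, h1, h2, h3, h4⟩
  · exact Or.inl h1
  · exact Or.inr (Or.inl h1)
  · exact Or.inr (Or.inr ⟨t, z, h1, h2, fun h5 => h3 (uneven_of h5), h4⟩)

end Pool.Agent.Results.MP_d69e80_al.UnevenConjugates
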